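import Pool.Agent.Work.MP_b30479_gt.FinalB

/-!
# For every knot, `a_n = J_n(K; e^{2πi/n})` is nonzero, and not too small, for almost all odd `n`
-/

namespace Pool.Agent.Results.MP_b30479_gt.AlmostAll

open Pool.Agent.Work.MP_b30479_gt

/-- For every knot `K` (closure of a braid word `β` whose closure has one component) there are
constants `c, C > 0` such that for all large `N` at most
`N exp(-c (log N log log N)^(1/2))` of the odd numbers `n ≤ N` satisfy
`|a_n| < exp(-C n (log n)^3)`; in particular `a_n ≠ 0` for all other odd `n`. -/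
theorem result (r : ℕ) (β : List (Fin r × Bool)) (hβ : IsKnot β) :
    ∃ c : ℝ, 0 < c ∧ ∃ C : ℝ, 0 < C ∧ ∃ N0 : ℕ, ∀ N : ℕ, N0 ≤ N →
      (((Finset.Icc 1 N).filter (fun n : ℕ => Odd n ∧
        ‖kashaev β n‖ < Real.exp (-(C * n * Real.log n ^ 3)))).card : ℝ) ≤
        N * Real.exp (-(c * Real.sqrt (Real.log N * Real.log (Real.log N)))) :=
  almost_all β hβ

end Pool.Agent.Results.MP_b30479_gt.AlmostAll
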