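import Pool.Agent.Work.MP_b30479_gt.GA.Public

/-!
# The complexified volume conjecture (ratio form) for arborescent links with long twist regions
-/

namespace Pool.Agent.Results.MP_b30479_gt.Arborescent

open Pool.Agent.Work.MP_b30479_gt Pool.Agent.Work.MP_b30479_gt.LT Filter Topology

/-- Let `T` be a plane tree with at least one edge and with integer weights of any signs, such that
the weight `b_v` of every vertex `v` satisfies `|b_v| ≥ 50` and `|b_v| ≥ 25 deg v`, let `L` be the
arborescent link of `T` (the closure of the arborescent tangle with a twist region with `b_v`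
crossings for every vertex `v`), and let `a_n = J_n(L; e^{2πi/n})`.  The logarithmic edge and
filling equations of the complement of `L` (two ideal octahedra for every edge of `T`, each cut
into four ideal tetrahedra; crossing circles filled) have exactly one solution with positively
oriented tetrahedra.  Let `volCS` be the value of Neumann's formula for `vol + i CS` at this
solution; its real part is the sum `volG > 0` of the Bloch-Wigner dilogarithms of the shapes, the
volume.  For every orientation of `L`, `a_n ≠ 0` for all large odd `n`, and, as `n → ∞` through the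
odd integers, `a_{n+2}/a_n → exp (volCS/π)` in `ℂ` (that is, `π log (a_{n+2}/a_n) → volCS` in
`ℂ/2π²iℤ`); in particular `π log |a_{n+2}/a_n| → volG`. -/
theorem result (T : ArbTree) (hE : Nonempty T.E)
    (hb : ∀ v, 50 ≤ |T.weight v| ∧ 25 * (T.deg v : ℤ) ≤ |T.weight v|) :
    ∃ (y : T.E → ℂ) (ζ : T.V → ℂ),
      (GeomG T.src T.tgt T.weight y ζ ∧
        ∀ y' ζ', GeomG T.src T.tgt T.weight y' ζ' → y' = y ∧ ζ' = ζ) ∧
      0 < volG T.src T.tgt y ζ ∧
      (volCS T.src T.tgt T.weight y ζ).re = volG T.src T.tgt y ζ ∧
      (∃ W, T.IsWrithe W) ∧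
      ∀ W, T.IsWrithe W →
        (∀ᶠ s : ℕ in atTop, arbKashaev T W (2 * s + 1) ≠ 0) ∧
        Tendsto (fun s : ℕ => arbKashaev T W (2 * s + 3) / arbKashaev T W (2 * s + 1)) atTop
          (𝓝 (Complex.exp (volCS T.src T.tgt T.weight y ζ / Real.pi))) ∧
        Tendsto (fun s : ℕ => Real.pi *
          Real.log ‖arbKashaev T W (2 * s + 3) / arbKashaev T W (2 * s + 1)‖) atTop
          (𝓝 (volG T.src T.tgt y ζ)) :=
  GA.pub_tree T hE hb

end Pool.Agent.Results.MP_b30479_gt.Arborescent
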