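import Pool.Agent.Work.MP_b30479_gt.AX.Final

/-!
# The volume conjecture, in the ratio form, for an infinite family of hyperbolic links
-/

namespace Pool.Agent.Results.MP_b30479_gt.BraidAxisVolume

open Pool.Agent.Work.MP_b30479_gt Filter Topology

/-- For `K ≥ 1` let `L_K` be the closure of the 3-braid `(σ_1 σ_2^{-1})^K` together with its braid
axis, and let `a_n = J_n(L_K; e^{2πi/n})`. Then `a_n ≠ 0` for all large odd `n`, and
`π log (a_{n+2}/a_n) → 2K vol(S³ ∖ 4_1)` as `n → ∞` through the odd integers. -/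
theorem result (K : ℕ) (hK : 1 ≤ K) :
    (∀ᶠ s : ℕ in atTop, kashaev (axisWord (wordK K)) (2 * s + 1) ≠ 0) ∧
    Tendsto (fun s : ℕ => (Real.pi : ℂ) * Complex.log (kashaev (axisWord (wordK K)) (2 * s + 3) /
      kashaev (axisWord (wordK K)) (2 * s + 1))) atTop (𝓝 ((2 * K * volFigureEight : ℝ) : ℂ)) := by
  have : NeZero K := ⟨by omega⟩
  exact AX.main K

end Pool.Agent.Results.MP_b30479_gt.BraidAxisVolume
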