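import Pool.Agent.Work.MP_b30479_gt.TBS.G2.WTop
import Pool.Agent.Work.MP_b30479_gt.TBS.G2.WMir

/-!
# The complexified volume conjecture (ratio form) for all hyperbolic two-bridge links
-/

namespace Pool.Agent.Results.MP_b30479_gt.TwoBridge

open Pool.Agent.Work.MP_b30479_gtS Pool.Agent.Work.MP_b30479_gtS.LT
  Pool.Agent.Work.MP_b30479_gtS.G2 Filter Topology

/-- Let `a_0, ..., a_N ≥ 1` with `a_0, a_N ≥ 2`, `N ≥ 1`, let `L = C(a_0, ..., a_N)` be the
two-bridge link of the continued fraction `[a_0, ..., a_N]` (a diagram with `N + 1` twist regions of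
`a_i` crossings).  These links and their mirror images are all two-bridge links except the torus
links `T(2, a)`, i.e. all hyperbolic ones.  Let `a_n = J_n(L; e^{2πi/n})`.  The word `a_0, ..., a_N`
is a path in the Farey tessellation.  There is a Markoff map on the vertices of the path (it
vanishes at the two ends) such that all tetrahedra of the Sakuma-Weeks triangulation of the
complement of `L`, whose shapes are `-(q/p)²` for the edges `{p, q}` crossed by the path, are
positively oriented.  Let `swVolume` be the sum of the Bloch-Wigner dilogarithms of the shapes, the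
volume, and let `swCV` be the value of Neumann's formula for `vol + i CS`, which depends on the
logarithms only modulo `π² i`.  There is a complex number `V` with `Re V = swVolume > 0` and
`V ≡ swCV` modulo `π² i` such that, for every orientation of `L`, `a_n ≠ 0` for all large odd `n`,
and, as `n → ∞` through the odd integers, `a_{n+2}/a_n → exp (V/π)` in `ℂ`; in particular
`π log |a_{n+2}/a_n| → swVolume`.  The same holds for the mirror image of `L` (the link of
`mirrorRev w` if `L` is the link of the braid word `w`), with the conjugate of `V` instead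
of `V`. -/
theorem result {M : ℕ} (a : Fin (M + 2) → ℕ) (ha : ∀ i, 1 ≤ a i) (h0 : 2 ≤ a 0)
    (hl : 2 ≤ a (Fin.last (M + 1))) :
    ∃ (p : Fin (M + 2) → ℂ) (q : Fin (M + 2) → ℕ → ℂ), Markoff a p q ∧ SWPos a p q ∧
      (∃ P Q, SWLog a p q P Q) ∧ 0 < swVolume a p q ∧
      ∃ V : ℂ, V.re = swVolume a p q ∧
      (∀ P Q, SWLog a p q P Q → ∃ k : ℤ, V - swCV a p q P Q = Real.pi ^ 2 * Complex.I * k) ∧
      ComplexGrowth (ltWord (List.ofFn (altf (M := M + 1) a))) V ∧
      ComplexGrowth (mirrorRev (ltWord (List.ofFn (altf (M := M + 1) a)))) ((starRingEnd ℂ) V) :=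
  pub_mir hsad_all a ha h0 hl

end Pool.Agent.Results.MP_b30479_gt.TwoBridge
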